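import Pool.Agent.W788.NV.Stm

set_option autoImplicit false

namespace Pool.Agent.W880.NV

open Set
open Pool.Agent.W788.NV

/-- EXP: exponential bounds from the generator -/
theorem exp_ (h : MK) : S_EXP := by
  intro S ι _ _ _ r m F c x t hr ht hF
  have hder : ∀ s : ℝ, HasDerivAt (fun s => Real.exp (-(c * s)) * sg r m s F x)
      (Real.exp (-(c * s)) * (-c) * sg r m s F x + Real.exp (-(c * s)) * sg r m s (gf r m F) x) s := by
    intro s
    have h1 : HasDerivAt (fun s : ℝ => Real.exp (-(c * s))) (Real.exp (-(c * s)) * (-c)) s := by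
      have h2 : HasDerivAt (fun s : ℝ => -(c * s)) (-c) s := by
        have := ((hasDerivAt_id s).const_mul c).neg
        rw [mul_one] at this
        exact this
      exact h2.exp
    exact h1.mul (h.deriv S ι r m F x s)
  have hle : ∀ s : ℝ, 0 ≤ s → sg r m s (gf r m F) x ≤ c * sg r m s F x := by
    intro s hs
    have h1 := h.mono S ι r m (gf r m F) (fun y => c * F y) x s hr hs hF
    have h2 := h.lin S ι Unit r m (fun _ => c) (fun _ => F) x s
    simp only [Finset.univ_unique, Finset.sum_singleton] at h2
    rw [h2] at h1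
    exact h1
  have hanti : AntitoneOn (fun s => Real.exp (-(c * s)) * sg r m s F x) (Ici 0) := by
    refine antitoneOn_of_deriv_nonpos (convex_Ici 0)
      (fun s _ => (hder s).continuousAt.continuousWithinAt)
      (fun s _ => (hder s).differentiableAt.differentiableWithinAt) fun s hs => ?_
    rw [interior_Ici] at hs
    rw [(hder s).deriv]
    have h1 := hle s (le_of_lt hs)
    have h2 := Real.exp_pos (-(c * s))
    nlinarith
  have h1 := hanti (mem_Ici.2 (le_refl (0 : ℝ))) (mem_Ici.2 ht) ht
  simp only [mul_zero, neg_zero, Real.exp_zero, one_mul] at h1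
  rw [h.zero] at h1
  have h2 : sg r m t F x = Real.exp (c * t) * (Real.exp (-(c * t)) * sg r m t F x) := by
    rw [← mul_assoc, ← Real.exp_add, add_neg_cancel, Real.exp_zero, one_mul]
  rw [h2]
  exact mul_le_mul_of_nonneg_left h1 (Real.exp_nonneg _)

end Pool.Agent.W880.NV
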