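import Pool.Agent.W788.NV.Stm

set_option autoImplicit false

namespace Pool.Agent.W880.NV

open Finset
open Pool.Agent.W788.NV

/-- VAR: derivative of the energy -/
theorem var_ (h : MK) : S_VAR := by
  intro S ι _ _ _ r m F x s τ
  obtain ⟨ind, hind⟩ : ∃ ind : S → S → ℝ, ind = fun k y => if y = k then 1 else 0 := ⟨_, rfl⟩
  have hsum : ∀ (H : S → ℝ) (y : S), ∑ k, H k * ind k y = H y := by
    intro H y
    rw [hind]
    simp
  have hexp : ∀ (H : S → ℝ) (t : ℝ), sg r m t H x = ∑ k, H k * sg r m t (ind k) x := by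
    intro H t
    rw [← h.lin S ι S r m H ind x t]
    congr 1
    funext y
    exact (hsum H y).symm
  have hgf : ∀ (H : S → ℝ) (y : S), ∑ k, H k * gf r m (ind k) y = gf r m H y := by
    intro H y
    unfold gf
    simp only [mul_sum]
    rw [sum_comm]
    refine sum_congr rfl fun e _ => ?_
    have h1 : ∀ k, H k * (r e * (ind k (m e y) - ind k y)) =
        r e * (H k * ind k (m e y) - H k * ind k y) := fun k => by ring
    rw [sum_congr rfl fun k _ => h1 k, ← mul_sum, sum_sub_distrib, hsum, hsum]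
  have ha : ∀ y, HasDerivAt (fun τ => sg r m (s - τ) F y) (-(gf r m (sg r m (s - τ) F) y)) τ := by
    intro y
    have h1 := h.deriv S ι r m F y (s - τ)
    have h2 : HasDerivAt (fun τ : ℝ => s - τ) (-1) τ := by
      have := (hasDerivAt_id τ).const_sub s
      exact this
    have h3 := h1.comp τ h2
    rw [h.comm S ι r m F (s - τ), mul_neg_one] at h3
    exact h3
  have hp : ∀ y, HasDerivAt (fun τ => sg r m τ (ind y) x) (sg r m τ (gf r m (ind y)) x) τ :=
    fun y => h.deriv S ι r m (ind y) x τ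
  have hd : HasDerivAt (fun τ => ∑ y, (sg r m (s - τ) F y) ^ 2 * sg r m τ (ind y) x)
      (∑ y, ((2 * sg r m (s - τ) F y * (-(gf r m (sg r m (s - τ) F) y))) * sg r m τ (ind y) x +
        (sg r m (s - τ) F y) ^ 2 * sg r m τ (gf r m (ind y)) x)) τ := by
    refine HasDerivAt.fun_sum fun y _ => ?_
    have h1 := (ha y).pow 2
    have h2 := h1.mul (hp y)
    have e : 2 * sg r m (s - τ) F y * (-(gf r m (sg r m (s - τ) F) y)) * sg r m τ (ind y) x +
        (sg r m (s - τ) F y) ^ 2 * sg r m τ (gf r m (ind y)) x =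
        (((2 : ℕ) : ℝ) * (sg r m (s - τ) F y) ^ (2 - 1) * (-(gf r m (sg r m (s - τ) F) y))) *
          sg r m τ (ind y) x + (sg r m (s - τ) F y) ^ 2 * sg r m τ (gf r m (ind y)) x := by
      norm_num
    rw [e]
    exact h2
  have hval : ∑ y, ((2 * sg r m (s - τ) F y * (-(gf r m (sg r m (s - τ) F) y))) * sg r m τ (ind y) x +
        (sg r m (s - τ) F y) ^ 2 * sg r m τ (gf r m (ind y)) x) =
      sg r m τ (gam r m (sg r m (s - τ) F)) x := by
    rw [sum_add_distrib]
    have h1 : ∑ y, (sg r m (s - τ) F y) ^ 2 * sg r m τ (gf r m (ind y)) x =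
        sg r m τ (gf r m (fun y => (sg r m (s - τ) F y) ^ 2)) x := by
      rw [← h.lin S ι S r m (fun y => (sg r m (s - τ) F y) ^ 2) (fun y => gf r m (ind y)) x τ]
      congr 1
      funext y
      exact hgf _ y
    rw [h1, hexp (gf r m (fun y => (sg r m (s - τ) F y) ^ 2)), hexp (gam r m (sg r m (s - τ) F)),
      ← sum_add_distrib]
    refine sum_congr rfl fun y _ => ?_
    rw [← add_mul]
    congr 1
    unfold gf gam
    rw [← sum_neg_distrib, mul_sum, ← sum_add_distrib]
    refine sum_congr rfl fun e _ => ?_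
    ring
  rw [hval] at hd
  refine hd.congr_of_eventuallyEq (Filter.Eventually.of_forall fun τ' => ?_)
  exact hexp _ τ'

end Pool.Agent.W880.NV
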